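import Pool.Agent.P.MP_eba2d2_an.NotHomeo2
import Pool.Agent.P.MP_eba2d2_an.Contr
import Pool.Agent.P.MP_eba2d2_an.Oka

/-! An explicit smooth affine surface in three-space that is contractible and Oka and is not
homeomorphic to any complex affine space. -/

set_option autoImplicit false

open Filter Topology

namespace Pool.Agent.Results.MP_eba2d2_an.Explicit

open Pool.Agent.P.MP_eba2d2_an

/-- the polynomial `2 x + x ^ 2 z - 3 y - 3 y ^ 2 z - y ^ 3 z ^ 2` -/
def poly (p : ℂ × ℂ × ℂ) : ℂ :=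
  2 * p.1 + p.1 ^ 2 * p.2.2 - 3 * p.2.1 - 3 * p.2.1 ^ 2 * p.2.2 - p.2.1 ^ 3 * p.2.2 ^ 2

/-- the level set `poly = 1` -/
def surf : Set (ℂ × ℂ × ℂ) := {p | poly p = 1}

theorem smooth (p : ℂ × ℂ × ℂ) (hp : p ∈ surf) : fderiv ℂ poly p ≠ 0 := by
  intro h
  have hd : DifferentiableAt ℂ poly p := by unfold poly; fun_prop
  have key : ∀ (w : ℂ × ℂ × ℂ) (c : ℂ), HasDerivAt (fun t : ℂ => poly (p + t • w)) c 0 → c = 0 := by
    intro w c hc
    have h1 : HasDerivAt (fun t : ℂ => p + t • w) w 0 := by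
      simpa using ((hasDerivAt_id (0 : ℂ)).smul_const w).const_add p
    have h2 : HasFDerivAt poly (fderiv ℂ poly p) (p + (0 : ℂ) • w) := by simpa using hd.hasFDerivAt
    have h3 := h2.comp_hasDerivAt 0 h1
    rw [h] at h3
    exact hc.unique h3
  obtain ⟨x, y, z⟩ := p
  have hp' : 2 * x + x ^ 2 * z - 3 * y - 3 * y ^ 2 * z - y ^ 3 * z ^ 2 = 1 := hp
  have quad : ∀ a b c d : ℂ, HasDerivAt (fun t : ℂ => a + b * t + c * t ^ 2 + d * t ^ 3) b 0 := by
    intro a b c d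
    have := ((((hasDerivAt_id (0 : ℂ)).const_mul b).const_add a).add
      ((hasDerivAt_pow 2 (0 : ℂ)).const_mul c)).add ((hasDerivAt_pow 3 (0 : ℂ)).const_mul d)
    exact this.congr_deriv (by simp)
  have h1 : 2 + 2 * x * z = 0 := key (1, 0, 0) _
    ((quad 1 _ z 0).congr_of_eventuallyEq (Eventually.of_forall fun t => by
      simp only [poly, Prod.mk_add_mk, Prod.smul_mk, smul_eq_mul]
      linear_combination hp'))
  have h2 : -3 - 6 * y * z - 3 * y ^ 2 * z ^ 2 = 0 := key (0, 1, 0) _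
    ((quad 1 _ (-3 * z - 3 * y * z ^ 2) (-z ^ 2)).congr_of_eventuallyEq
      (Eventually.of_forall fun t => by
        simp only [poly, Prod.mk_add_mk, Prod.smul_mk, smul_eq_mul]
        linear_combination hp'))
  have h3 : (1 + y * z) ^ 2 = 0 := by linear_combination (-1 / 3) * h2
  have h4 : 1 + y * z = 0 := pow_eq_zero_iff two_ne_zero |>.1 h3
  have h5 : 1 + x * z = 0 := by linear_combination (1 / 2) * h1
  have h6 : z = (1 + x * z) ^ 2 - (1 + y * z) ^ 3 := by linear_combination (-z) * hp'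
  rw [h4, h5] at h6
  rw [h6] at h5
  norm_num at h5

theorem result :
    (∀ p ∈ surf, fderiv ℂ poly p ≠ 0) ∧ ContractibleSpace surf ∧
    (∀ (m : ℕ) (K U : Set (EuclideanSpace ℂ (Fin m))) (f : EuclideanSpace ℂ (Fin m) → ℂ × ℂ × ℂ),
      IsCompact K → Convex ℝ K → IsOpen U → K ⊆ U → DifferentiableOn ℂ f U →
      Set.MapsTo f U surf →
      ∃ g : ℕ → EuclideanSpace ℂ (Fin m) → ℂ × ℂ × ℂ,
        (∀ j, Differentiable ℂ (g j) ∧ ∀ z, g j z ∈ surf) ∧ TendstoUniformlyOn g f atTop K) ∧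
    ∀ n : ℕ, IsEmpty (surf ≃ₜ EuclideanSpace ℂ (Fin n)) := by
  refine ⟨smooth, contractible, fun m K U f hK hc hU hKU hf hm => ?_,
    fun n => ⟨not_homeo_all n⟩⟩
  have hv : VMap K f := fun p hp =>
    ⟨contDiffAt_of_differentiableOn hf (hU.mem_nhds (hKU hp)), by
      filter_upwards [hU.mem_nhds (hKU hp)] with w hw
      exact hm hw⟩
  choose g h1 h2 h3 using fun j : ℕ => cap_vmap hK hc hv (Nat.one_div_pos_of_nat (n := j))
  refine ⟨g, fun j => ⟨h1 j, h2 j⟩, Metric.tendstoUniformlyOn_iff.2 fun ε hε => ?_⟩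
  filter_upwards [(tendsto_one_div_add_atTop_nhds_zero_nat (𝕜 := ℝ)).eventually
    (gt_mem_nhds hε)] with j hj y hy
  rw [dist_comm, dist_eq_norm]
  exact (h3 j y hy).trans hj

end Pool.Agent.Results.MP_eba2d2_an.Explicit
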